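import Pool.Agent.Y717.BRG
import Pool.Agent.Y717.RC

/-!
# Number fields which cover the rational primes, and the Sato-Tate conjecture

Let `𝓜` be a set of number fields such that for every `ε > 0` all rational primes but a proportion
of at most `ε` are norms of primes of one of finitely many members of `𝓜`. If the Sato-Tate
conjecture holds for all abelian varieties (or only for all Jacobians) over the members of `𝓜`, then
it holds for all abelian varieties over all number fields.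

Examples: `𝓜` consists of the three quadratic fields contained in a biquadratic field; or of a
cubic field which is not Galois and the quadratic field of its discriminant; or `𝓜` is any infinite
set of quadratic fields.

The result is formulated for two classes `𝒥 ⊆ 𝒜` of polarised representations with the property
that for number fields `K`, `M` contained in `N` and `ρ` in `𝒜(K)` there is a `ρ'` in `𝒥(M)` which
contains the representation induced from `ρ|N`. For abelian varieties one can take the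
restriction of scalars from `N` to `M` of the base change to `N`, or a Jacobian of which it is a
quotient.
-/

set_option autoImplicit false

open NumberField IsDedekindDomain Filter Topology MeasureTheory

namespace Pool.Agent.Results.MP_c481b3_nt.CoveringNumberFields

open Pool.Agent.Y717.Stm

theorem result (χ : Gal(AlgebraicClosure ℚ/ℚ) →* ℂˣ)
    (𝒜 𝒥 : ∀ (K : IntermediateField ℚ (AlgebraicClosure ℚ)) (n : ℕ),
      (K.fixingSubgroup →* GL (Fin n) ℂ) → Matrix (Fin n) (Fin n) ℂ → Prop)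
    (hA : ∀ K n ρ J, 𝒜 K n ρ J → Polarised χ ρ J) (hJA : ∀ K n ρ J, 𝒥 K n ρ J → 𝒜 K n ρ J)
    (hJ : ∀ (M : IntermediateField ℚ (AlgebraicClosure ℚ)) (_ : NumberField M) (n : ℕ)
      (ρ : M.fixingSubgroup →* GL (Fin n) ℂ) (J : Matrix (Fin n) (Fin n) ℂ),
      𝒥 M n ρ J → HasST ρ J)
    (hW : ∀ K M N : IntermediateField ℚ (AlgebraicClosure ℚ), NumberField N → K ≤ N → M ≤ N →
      ∀ (n : ℕ) (ρ : K.fixingSubgroup →* GL (Fin n) ℂ) (J : Matrix (Fin n) (Fin n) ℂ),
      𝒜 K n ρ J → ∃ (m : ℕ) (ρ' : M.fixingSubgroup →* GL (Fin m) ℂ)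
        (J' : Matrix (Fin m) (Fin m) ℂ), 𝒥 M m ρ' J' ∧ Dominates ρ' ρ N)
    (𝓜 : Set (IntermediateField ℚ (AlgebraicClosure ℚ)))
    (h𝓜 : ∀ M ∈ 𝓜, ∃ _ : NumberField M, ∀ (n : ℕ) (ρ : M.fixingSubgroup →* GL (Fin n) ℂ)
      (J : Matrix (Fin n) (Fin n) ℂ), 𝒥 M n ρ J → SatoTate ρ J)
    (hcov : ∀ ε : ℝ, 0 < ε → ∃ (k : ℕ) (M : Fin k → IntermediateField ℚ (AlgebraicClosure ℚ))
      (_ : ∀ i, NumberField (M i)), (∀ i, M i ∈ 𝓜) ∧
      ∀ᶠ N : ℕ in atTop, (({p : ℕ | p.Prime ∧ p ≤ N ∧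
        ¬ ∃ i, ∃ w : HeightOneSpectrum (𝓞 (M i)), Ideal.absNorm w.asIdeal = p}.ncard : ℕ) : ℝ) ≤
          ε * Nat.primeCounting N) :
    ∀ (K : IntermediateField ℚ (AlgebraicClosure ℚ)) (_ : NumberField K) (n : ℕ)
      (ρ : K.fixingSubgroup →* GL (Fin n) ℂ) (J : Matrix (Fin n) (Fin n) ℂ),
      𝒜 K n ρ J → SatoTate ρ J := by
  intro K hK n ρ J h
  have key := Pool.Agent.Y717.RC.main χ
    (fun K => {A | ∃ (n : ℕ) (ρ : K.fixingSubgroup →* GL (Fin n) ℂ)
      (J : Matrix (Fin n) (Fin n) ℂ) (h : 𝒜 K n ρ J), A = Pool.Agent.Y717.mkRep ρ J (hA _ _ _ _ h)})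
    (fun K => {A | ∃ (n : ℕ) (ρ : K.fixingSubgroup →* GL (Fin n) ℂ)
      (J : Matrix (Fin n) (Fin n) ℂ) (h : 𝒥 K n ρ J),
        A = Pool.Agent.Y717.mkRep ρ J (hA _ _ _ _ (hJA _ _ _ _ h))})
    (by
      rintro K _ ⟨n, ρ, J, h, rfl⟩
      exact ⟨n, ρ, J, hJA _ _ _ _ h, rfl⟩)
    (by
      rintro M hM _ ⟨n, ρ, J, h, rfl⟩
      exact hJ M hM n ρ J h)
    (by
      rintro K M N hN hKN hMN _ ⟨n, ρ, J, h, rfl⟩
      obtain ⟨m, ρ', J', h', hD⟩ := hW K M N hN hKN hMN n ρ J h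
      exact ⟨_, ⟨m, ρ', J', h', rfl⟩, hD⟩)
    𝓜
    (by
      intro M hM
      obtain ⟨hMn, hST⟩ := h𝓜 M hM
      refine ⟨hMn, ?_⟩
      rintro _ ⟨n, ρ, J, h, rfl⟩
      exact hST n ρ J h)
    hcov
  exact key K hK _ ⟨n, ρ, J, h, rfl⟩

end Pool.Agent.Results.MP_c481b3_nt.CoveringNumberFields
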