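import Pool.Agent.Y717.BRG
import Pool.Agent.Y717.RA

/-!
# The Sato-Tate conjecture and base change to linearly disjoint extensions

Let `ρ` be a polarised representation of the absolute Galois group of a number field `K`, such as
the one given by the Tate module of an abelian variety over `K`. Let `L₁, …, L_k` be finite
extensions of `K`, pairwise linearly disjoint over `K`, such that the Sato-Tate conjecture holds for
the restriction of `ρ` to every `L_i`. Then for every continuous class function `f` on the Sato-Tate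
group of `ρ` the averages of `f` at the Frobenius classes of `ρ` over the primes of norm at most `N`
differ from the Haar integral of `f` by at most `2 max|f| (∑ 1/[L_i : K])^(-1/2) + δ`, for every
`δ > 0` and all large `N`. Hence the Sato-Tate conjecture holds for `ρ` if it holds for the base
changes to an infinite sequence of pairwise linearly disjoint extensions with `∑ 1/[L_i : K] = ∞`,
for example for infinitely many quadratic extensions.
-/

set_option autoImplicit false

open NumberField IsDedekindDomain Filter Topology MeasureTheory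

namespace Pool.Agent.Results.MP_c481b3_nt.DisjointBaseChange

open Pool.Agent.Y717.Stm

theorem result (χ : Gal(AlgebraicClosure ℚ/ℚ) →* ℂˣ)
    (K : IntermediateField ℚ (AlgebraicClosure ℚ)) (_ : NumberField K) (n : ℕ)
    (ρ : K.fixingSubgroup →* GL (Fin n) ℂ) (J : Matrix (Fin n) (Fin n) ℂ)
    (hρ : Polarised χ ρ J) :
    (∀ (k : ℕ) (L : Fin k → IntermediateField ℚ (AlgebraicClosure ℚ))
      (_ : ∀ i, NumberField (L i)) (hKL : ∀ i, K ≤ L i), 0 < k →
      (∀ i j, i ≠ j → Module.finrank ℚ (L i ⊔ L j : IntermediateField ℚ (AlgebraicClosure ℚ)) *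
        Module.finrank ℚ K = Module.finrank ℚ (L i) * Module.finrank ℚ (L j)) →
      (∀ i, HasST (res ρ (hKL i)) J) → (∀ i, SatoTate (res ρ (hKL i)) J) →
      ∀ (S : Subgroup (GL (Fin n) ℂ)) (x : HeightOneSpectrum (𝓞 K) → S), IsST ρ J S →
        IsFrobData ρ J S x → ∀ (_ : MeasurableSpace S) (_ : BorelSpace S) (μ : Measure S),
        IsProbabilityMeasure μ → μ.IsHaarMeasure → ∀ f : S → ℂ, Continuous f →
        (∀ s t : S, f (t * s * t⁻¹) = f s) → ∀ B : ℝ, (∀ s, ‖f s‖ ≤ B) → ∀ δ : ℝ, 0 < δ →
        ∀ᶠ N in atTop, ‖avg K (fun v => f (x v)) N - ∫ s, f s ∂μ‖ <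
          2 * B / Real.sqrt (∑ i, (Module.finrank ℚ K : ℝ) / Module.finrank ℚ (L i)) + δ) ∧
    (∀ (L : ℕ → IntermediateField ℚ (AlgebraicClosure ℚ)) (_ : ∀ i, NumberField (L i))
      (hKL : ∀ i, K ≤ L i),
      (∀ i j, i ≠ j → Module.finrank ℚ (L i ⊔ L j : IntermediateField ℚ (AlgebraicClosure ℚ)) *
        Module.finrank ℚ K = Module.finrank ℚ (L i) * Module.finrank ℚ (L j)) →
      (¬ Summable fun i => (Module.finrank ℚ K : ℝ) / Module.finrank ℚ (L i)) →
      (∀ i, HasST (res ρ (hKL i)) J) → (∀ i, SatoTate (res ρ (hKL i)) J) → SatoTate ρ J) :=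
  Pool.Agent.Y717.RA.main χ K inferInstance (Pool.Agent.Y717.mkRep ρ J hρ)

end Pool.Agent.Results.MP_c481b3_nt.DisjointBaseChange
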