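import Pool.Agent.Y717.BRG
import Pool.Agent.Y717.RD

/-!
# The number fields over which the Sato-Tate conjecture holds

Let `Σ` be the set of the number fields `M` such that the Sato-Tate conjecture holds for all
abelian varieties over `M`. We show: if `Σ` contains infinitely many fields of degree at most `d`,
then there is a number field `F`, a proper subfield of infinitely many of these fields, such that
`Σ` contains every number field which contains `F`. In particular, if the Sato-Tate conjecture is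
false (over some number field), then for every `d` it is false over all but finitely many of the
number fields of degree at most `d` which have no subfields other than `ℚ` and themselves; for
example over all but finitely many number fields of every given prime degree.

The result is formulated for two classes `𝒜`, `𝒥` of polarised representations with the property
that for number fields `K`, `M` contained in `N` and `ρ` in `𝒜(K)` there is a `ρ'` in `𝒥(M)` which
contains the representation induced from `ρ|N`. For abelian varieties one can take the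
restriction of scalars from `N` to `M` of the base change to `N`, or a Jacobian of which it is a
quotient.
-/

set_option autoImplicit false

open NumberField IsDedekindDomain Filter Topology MeasureTheory

namespace Pool.Agent.Results.MP_c481b3_nt.FieldsOfBoundedDegree

open Pool.Agent.Y717.Stm

theorem result (χ : Gal(AlgebraicClosure ℚ/ℚ) →* ℂˣ)
    (𝒜 𝒥 : ∀ (K : IntermediateField ℚ (AlgebraicClosure ℚ)) (n : ℕ),
      (K.fixingSubgroup →* GL (Fin n) ℂ) → Matrix (Fin n) (Fin n) ℂ → Prop)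
    (hA : ∀ K n ρ J, 𝒜 K n ρ J → Polarised χ ρ J)
    (hJP : ∀ K n ρ J, 𝒥 K n ρ J → Polarised χ ρ J)
    (hJ : ∀ (M : IntermediateField ℚ (AlgebraicClosure ℚ)) (_ : NumberField M) (n : ℕ)
      (ρ : M.fixingSubgroup →* GL (Fin n) ℂ) (J : Matrix (Fin n) (Fin n) ℂ),
      𝒥 M n ρ J → HasST ρ J)
    (hW : ∀ K M N : IntermediateField ℚ (AlgebraicClosure ℚ), NumberField N → K ≤ N → M ≤ N →
      ∀ (n : ℕ) (ρ : K.fixingSubgroup →* GL (Fin n) ℂ) (J : Matrix (Fin n) (Fin n) ℂ),
      𝒜 K n ρ J → ∃ (m : ℕ) (ρ' : M.fixingSubgroup →* GL (Fin m) ℂ)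
        (J' : Matrix (Fin m) (Fin m) ℂ), 𝒥 M m ρ' J' ∧ Dominates ρ' ρ N)
    (d : ℕ) (𝓜 : Set (IntermediateField ℚ (AlgebraicClosure ℚ))) (h𝓜 : 𝓜.Infinite)
    (hd : ∀ M ∈ 𝓜, NumberField M ∧ Module.finrank ℚ M ≤ d)
    (hST : ∀ M ∈ 𝓜, ∀ _ : NumberField M, ∀ (n : ℕ) (ρ : M.fixingSubgroup →* GL (Fin n) ℂ)
      (J : Matrix (Fin n) (Fin n) ℂ), 𝒥 M n ρ J → SatoTate ρ J) :
    ∃ F : IntermediateField ℚ (AlgebraicClosure ℚ), {M ∈ 𝓜 | F < M}.Infinite ∧
      ∀ (K : IntermediateField ℚ (AlgebraicClosure ℚ)) (_ : NumberField K), F ≤ K → ∀ (n : ℕ)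
        (ρ : K.fixingSubgroup →* GL (Fin n) ℂ) (J : Matrix (Fin n) (Fin n) ℂ),
        𝒜 K n ρ J → SatoTate ρ J := by
  have key := Pool.Agent.Y717.RD.main χ
    (fun K => {A | ∃ (n : ℕ) (ρ : K.fixingSubgroup →* GL (Fin n) ℂ)
      (J : Matrix (Fin n) (Fin n) ℂ) (h : 𝒜 K n ρ J), A = Pool.Agent.Y717.mkRep ρ J (hA _ _ _ _ h)})
    (fun K => {A | ∃ (n : ℕ) (ρ : K.fixingSubgroup →* GL (Fin n) ℂ)
      (J : Matrix (Fin n) (Fin n) ℂ) (h : 𝒥 K n ρ J),
        A = Pool.Agent.Y717.mkRep ρ J (hJP _ _ _ _ h)})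
    (by
      rintro M hM _ ⟨n, ρ, J, h, rfl⟩
      exact hJ M hM n ρ J h)
    (by
      rintro K M N hN hKN hMN _ ⟨n, ρ, J, h, rfl⟩
      obtain ⟨m, ρ', J', h', hD⟩ := hW K M N hN hKN hMN n ρ J h
      exact ⟨_, ⟨m, ρ', J', h', rfl⟩, hD⟩)
    d 𝓜 h𝓜 hd
    (by
      rintro M hM hMn _ ⟨n, ρ, J, h, rfl⟩
      exact hST M hM hMn n ρ J h)
  obtain ⟨F, hF, hK⟩ := key
  exact ⟨F, hF, fun K hKn hFK n ρ J h => hK K hKn hFK _ ⟨n, ρ, J, h, rfl⟩⟩

end Pool.Agent.Results.MP_c481b3_nt.FieldsOfBoundedDegree
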