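import Pool.Agent.Y798.FC.Fin
import Pool.Agent.Y495.FC.Div
import Pool.Agent.Y495.FC.Irr
import Pool.Agent.Y674.FC.C
import Pool.Agent.H70FC.Str
import Pool.Agent.H70FC.Words
import Pool.Agent.Y37.FC.Taub
import Pool.Agent.Y988.FC.Inv
import Pool.Agent.Y681.FC.Im

/-!
# Finitely many orders at `s = 1` decide the Sato-Tate law, up to discretisation

`A` is an abelian variety of dimension `g` over a number field `K` whose Sato-Tate group is `USp(2g)`; the class
of the normalised Frobenius at a prime `v` is given by its angles `φ_v ∈ (ℝ/ℤ)^g`: the eigenvalues on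
`V = H¹(A)` are `e(±φ_{v,1}), …, e(±φ_{v,g})`, `e(x) = exp(2πix)` (the values at the finitely many bad primes
do not matter).  `L(k, s)`, for a word `k = (k_1, …, k_r)`, is the Euler product attached to
`Λ^{k_1} V ⊗ ⋯ ⊗ Λ^{k_r} V`, that is to `H^{k_1}(A) ⊗ ⋯ ⊗ H^{k_r}(A)`, normalised such that the edge of
absolute convergence is `Re s = 1`.  Nothing but `|e(φ)| = 1` is used about the `φ_v`.

Serre's criterion for the Sato-Tate law needs the behaviour of all these functions on the line `Re s = 1`.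
Here it is shown that the orders of finitely many of them at the single point `s = 1`, a list which depends
only on `g`, are enough, up to discretisation of the law, once all the functions have meromorphic continuations to
neighbourhoods of `s = 1`, with zeros and poles of any orders; the discretisations are impossible unless `Nφ_v`
tends to the origin of the torus in the mean for some `N > 0`.  There is a form of this at finite level in
which nothing is supposed.
-/

set_option autoImplicit false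

namespace Pool.Agent.Results.MP_c481b3_nt.FinitelyManyOrders

open NumberField IsDedekindDomain Filter Topology MeasureTheory UnitAddTorus

section

variable {K : Type} [Field K] [NumberField K]

/-- The average of `f` over the primes of `K` of norm at most `N`. -/
noncomputable def avg (f : HeightOneSpectrum (𝓞 K) → ℝ) (N : ℕ) : ℝ :=
  (∑ᶠ w : {w : HeightOneSpectrum (𝓞 K) // Ideal.absNorm w.asIdeal ≤ N}, f w.1) /
    (Nat.card {w : HeightOneSpectrum (𝓞 K) // Ideal.absNorm w.asIdeal ≤ N} : ℝ)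

/-- The Dirichlet average `∑ f(v) q_v^{-1-ε} / ∑ q_v^{-1-ε}` over the primes of `K`. -/
noncomputable def dirichletAvg (f : HeightOneSpectrum (𝓞 K) → ℝ) (ε : ℝ) : ℝ :=
  (∑' v : HeightOneSpectrum (𝓞 K), f v * (Ideal.absNorm v.asIdeal : ℝ) ^ (-(1 + ε))) /
    ∑' v : HeightOneSpectrum (𝓞 K), (Ideal.absNorm v.asIdeal : ℝ) ^ (-(1 + ε))

end

section

/-- The eigenvalues `e(φ_1), …, e(φ_g), e(-φ_1), …, e(-φ_g)` of the class with the angles `φ`. -/
noncomputable def eigenvalue {g : ℕ} (φ : UnitAddTorus (Fin g)) (i : Fin (g + g)) : ℂ :=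
  fourier 1 (Fin.append φ (-φ) i)

/-- The trace of the class with the angles `φ` on `Λ^{k_1} V ⊗ ⋯ ⊗ Λ^{k_r} V`. -/
noncomputable def wordTrace {g r : ℕ} (k : Fin r → ℕ) (φ : UnitAddTorus (Fin g)) : ℂ :=
  ∏ j, ∑ S ∈ Finset.powersetCard (k j) (Finset.univ : Finset (Fin (g + g))),
    ∏ i ∈ S, eigenvalue φ i

/-- The Euler product
`L(k, s) = ∏_v det(1 - Frob_v q_v^{-s} | Λ^{k_1} V ⊗ ⋯ ⊗ Λ^{k_r} V)⁻¹`; the factor at `v` is the
product over all families `S = (S_1, …, S_r)` of sets `S_j` of `k_j` eigenvalues. -/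
noncomputable def LWord {K : Type} [Field K] [NumberField K] {g r : ℕ}
    (φ : HeightOneSpectrum (𝓞 K) → UnitAddTorus (Fin g)) (k : Fin r → ℕ) (s : ℂ) : ℂ :=
  ∏' v : HeightOneSpectrum (𝓞 K), (∏ S ∈ Fintype.piFinset fun j => Finset.powersetCard (k j)
    (Finset.univ : Finset (Fin (g + g))),
      (1 - (∏ j, ∏ i ∈ S j, eigenvalue (φ v) i) * (Ideal.absNorm v.asIdeal : ℂ) ^ (-s)))⁻¹

/-- `log |L(1 + ε)| / log(1/ε)`; if `L` has a meromorphic continuation with a pole of order `m` at `s = 1`,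
this tends to `m`. -/
noncomputable def size (L : ℂ → ℂ) (ε : ℝ) : ℝ :=
  Real.log ‖L (1 + ε)‖ / Real.log (1 / ε)

/-- `L`, given for `Re s > 1`, has a meromorphic continuation to a neighbourhood of `s₀`. -/
def ContinuesTo (L : ℂ → ℂ) (s₀ : ℂ) : Prop :=
  ∃ Λ : ℂ → ℂ, MeromorphicAt Λ s₀ ∧ ∀ᶠ s in 𝓝 s₀, 1 < s.re → Λ s = L s

/-- `L` has a meromorphic continuation to a neighbourhood of `s₀`, with a pole of order `m` at `s₀` (a zero
of order `-m` if `m < 0`). -/
def HasPole (L : ℂ → ℂ) (s₀ : ℂ) (m : ℤ) : Prop :=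
  ∃ Λ : ℂ → ℂ, MeromorphicAt Λ s₀ ∧ (∀ᶠ s in 𝓝 s₀, 1 < s.re → Λ s = L s) ∧
    meromorphicOrderAt Λ s₀ = ((-m : ℤ) : WithTop ℤ)

variable {g : ℕ}

/-- The positive roots `2e_i`, `e_i - e_j`, `e_i + e_j`, `i < j`, of `USp(2g)`. -/
def positiveRoots (g : ℕ) : Finset (Fin g → ℤ) :=
  (Finset.univ.image fun i : Fin g => Pi.single i 2) ∪
    ((Finset.univ.filter fun p : Fin g × Fin g => p.1 < p.2).image
      fun p => Pi.single p.1 1 - Pi.single p.2 1) ∪
    ((Finset.univ.filter fun p : Fin g × Fin g => p.1 < p.2).image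
      fun p => Pi.single p.1 1 + Pi.single p.2 1)

/-- Weyl's density `D(φ) = ∏_i |1 - e(2φ_i)|² ∏_{i<j} |1 - e(φ_i - φ_j)|² |1 - e(φ_i + φ_j)|²`. -/
noncomputable def weylDensity (φ : UnitAddTorus (Fin g)) : ℝ :=
  ∏ α ∈ positiveRoots g, ‖1 - mFourier α φ‖ ^ 2

/-- The mean value of a class function for the Haar measure of `USp(2g)` (Weyl's integration formula):
`(2^g g!)⁻¹ ∫ f(φ) D(φ) dφ`. -/
noncomputable def satoTate (g : ℕ) (f : UnitAddTorus (Fin g) → ℝ) : ℝ :=
  (2 ^ g * g.factorial : ℝ)⁻¹ *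
    ∫ φ, f φ * weylDensity φ ∂(Measure.pi fun _ : Fin g => AddCircle.haarAddCircle)

/-- The discretised mean value `(2^g g!)⁻¹ |A|⁻¹ ∑_{φ ∈ A} f(φ) D(φ)`. -/
noncomputable def gridMean (A : Finset (UnitAddTorus (Fin g))) (f : UnitAddTorus (Fin g) → ℝ) : ℝ :=
  (2 ^ g * g.factorial : ℝ)⁻¹ * ((A.card : ℝ)⁻¹ * ∑ φ ∈ A, f φ * weylDensity φ)

/-- The signed permutation `(s_1 φ_{σ(1)}, …, s_g φ_{σ(g)})`. -/
def signedPerm (σ : Equiv.Perm (Fin g)) (s : Fin g → ℤˣ) (φ : UnitAddTorus (Fin g)) :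
    UnitAddTorus (Fin g) := fun i => (s i : ℤ) • φ (σ i)

/-- `f` is a class function: it is invariant under the signed permutations (the Weyl group). -/
def IsClassFunction (f : UnitAddTorus (Fin g) → ℝ) : Prop :=
  ∀ (σ : Equiv.Perm (Fin g)) (s : Fin g → ℤˣ) (φ : UnitAddTorus (Fin g)),
    f (signedPerm σ s φ) = f φ

/-- `A` is a coset of a finite subgroup of the torus, and it is stable under the signed permutations. -/
structure IsGrid (A : Finset (UnitAddTorus (Fin g))) : Prop where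
  nonempty : A.Nonempty
  coset : ∀ x ∈ A, ∀ y ∈ A, ∀ z ∈ A, x - y + z ∈ A
  stable : ∀ (σ : Equiv.Perm (Fin g)) (s : Fin g → ℤˣ), ∀ φ ∈ A, signedPerm σ s φ ∈ A

/-- `M` is the Sato-Tate law or one of its discretisations. -/
def IsLaw (g : ℕ) (M : (UnitAddTorus (Fin g) → ℝ) → ℝ) : Prop :=
  M = satoTate g ∨ ∃ A : Finset (UnitAddTorus (Fin g)), IsGrid A ∧ M = gridMean A

/-- For some `N > 0` the distance `‖Nφ_v‖` of `Nφ_v` to the origin of the torus tends to `0` in the mean (in the sense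
of Dirichlet density): the classes accumulate at the classes of finite order. -/
def AlmostTorsion {K : Type} [Field K] [NumberField K]
    (φ : HeightOneSpectrum (𝓞 K) → UnitAddTorus (Fin g)) : Prop :=
  ∃ N : ℕ, 0 < N ∧ Tendsto (dirichletAvg fun v => ‖N • φ v‖) (𝓝[>] 0) (𝓝 0)

/-- The multiplicity of the trivial representation of `USp(2g)` in `Λ^{k_1} V ⊗ ⋯ ⊗ Λ^{k_r} V`: the order of
the pole of `L(k, s)` at `s = 1` which belongs to the Sato-Tate law. -/
noncomputable def multiplicity (g : ℕ) {r : ℕ} (k : Fin r → ℕ) : ℝ :=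
  satoTate g fun φ => (wordTrace k φ).re

end

section Bridge

set_option linter.unusedSectionVars false

open Pool.Agent.Y798.FC Pool.Agent.TH553.ST Pool.Agent.TH553.RS Pool.Agent.W540.BE

variable {g : ℕ}

theorem avg_eq {K : Type} [Field K] [NumberField K] (f : HeightOneSpectrum (𝓞 K) → ℝ) :
    avg f = mn f := by
  funext N
  have hs : ∀ v, v ∈ upto K N ↔ Ideal.absNorm v.asIdeal ≤ N := fun v => mem_upto
  let e : {v : HeightOneSpectrum (𝓞 K) // Ideal.absNorm v.asIdeal ≤ N} ≃ (upto K N) :=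
    Equiv.subtypeEquivRight fun v => (hs v).symm
  have hfin : Finite {v : HeightOneSpectrum (𝓞 K) // Ideal.absNorm v.asIdeal ≤ N} :=
    Finite.of_equiv _ e.symm
  unfold avg mn
  have h1 : (∑ᶠ v : {v : HeightOneSpectrum (𝓞 K) // Ideal.absNorm v.asIdeal ≤ N}, f v.1) =
      ∑ v ∈ upto K N, f v := by
    rw [← Finset.sum_coe_sort, ← finsum_eq_sum_of_fintype, ← finsum_comp_equiv e]
    rfl
  have h2 : Nat.card {v : HeightOneSpectrum (𝓞 K) // Ideal.absNorm v.asIdeal ≤ N} =
      (upto K N).card := by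
    rw [Nat.card_congr e, Nat.card_eq_fintype_card, Fintype.card_coe]
  rw [h1, h2, smul_eq_mul, div_eq_inv_mul]

theorem card_W : (Nat.card (sympW g) : ℝ) = 2 ^ g * g.factorial := by
  rw [Pool.Agent.Y674.FC.card_W]
  push_cast
  ring

theorem inv_of_class {f : UnitAddTorus (Fin g) → ℝ} (hf : IsClassFunction f) :
    ∀ w ∈ sympW g, ∀ x, f (act w x) = f x := by
  rintro w ⟨σ, s, h⟩ x
  have h1 : act w x = signedPerm σ⁻¹ (fun j => s (σ⁻¹ j)) x := by
    funext j
    rw [Pool.Agent.Y674.FC.act_eq h]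
    rfl
  rw [h1, hf]

theorem exists_act (σ : Equiv.Perm (Fin g)) (s : Fin g → ℤˣ) :
    ∃ w ∈ sympW g, ∀ x, act w x = signedPerm σ s x := by
  refine ⟨Pool.Agent.Y674.FC.mk σ⁻¹ (fun j => s (σ⁻¹ j)), ⟨σ⁻¹, fun j => s (σ⁻¹ j), fun x j =>
    Pool.Agent.Y674.FC.mk_apply _ _ _ _⟩, fun x => ?_⟩
  funext j
  rw [Pool.Agent.Y674.FC.act_eq (fun x j => Pool.Agent.Y674.FC.mk_apply _ _ _ _)]
  simp [signedPerm]

theorem law_of_adm {Γ : AddSubgroup (Fin g → ℤ)} {a : UnitAddTorus (Fin g)} (h : Adm g Γ a) :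
    ∃ (M : (UnitAddTorus (Fin g) → ℝ) → ℝ) (σ : Measure (UnitAddTorus (Fin g))), IsLaw g M ∧
      (Γ = ⊥ → M = satoTate g) ∧ Pool.Agent.Y139.ID.IsHaarOn (Pool.Agent.Y139.ID.annih Γ) σ ∧
      ∀ f : UnitAddTorus (Fin g) → ℝ, Continuous f →
        cosetMean (sympW g) (sympRoots g) σ a f = M f := by
  obtain ⟨h1, h2, h3⟩ := h
  by_cases h0 : Γ = ⊥
  · subst h0
    refine ⟨satoTate g, vol (Fin g), Or.inl rfl, fun _ => rfl, haar_top, fun f hf => ?_⟩
    rw [cosetMean_bot _ _ _ hf, card_W]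
    rfl
  · obtain ⟨N, hN, hΓ⟩ := h1.resolve_left h0
    obtain ⟨A, σ, hσ, k1, k2, k3, k4⟩ := exists_grid (Φ := sympRoots g) hN hΓ h3
    refine ⟨gridMean A, σ, Or.inr ⟨A, ⟨⟨a, k1⟩, k2, fun τ s φ hφ => ?_⟩, rfl⟩,
      fun h => absurd h h0, hσ, fun f hf => ?_⟩
    · obtain ⟨w, hw, hact⟩ := exists_act τ s
      rw [← hact]
      exact k3 w hw φ hφ
    · rw [k4 f hf]
      unfold gridM gridMean
      rw [card_W]
      rfl

theorem mF_nsmul (μ : Fin g → ℤ) (N : ℕ) (x : UnitAddTorus (Fin g)) :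
    mFourier μ (N • x) = mFourier (N • μ) x := by
  rw [mFourier_nsmul]
  induction N with
  | zero =>
    rw [zero_smul, pow_zero]
    simp [mFourier]
  | succ N ih => rw [succ_nsmul, Pool.Agent.Y139.ID.mFourier_apply_add, ih, pow_succ]

theorem norm_signedPerm (σ : Equiv.Perm (Fin g)) (s : Fin g → ℤˣ) (φ : UnitAddTorus (Fin g)) :
    ‖signedPerm σ s φ‖ = ‖φ‖ := by
  have h1 : ∀ i, ‖signedPerm σ s φ i‖ = ‖φ (σ i)‖ := by
    intro i
    unfold signedPerm
    rcases Int.units_eq_one_or (s i) with h | h <;> rw [h] <;> simp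
  refine le_antisymm ?_ ?_
  · refine (pi_norm_le_iff_of_nonneg (norm_nonneg _)).2 fun i => ?_
    rw [h1]
    exact norm_le_pi_norm φ _
  · refine (pi_norm_le_iff_of_nonneg (norm_nonneg _)).2 fun i => ?_
    have h2 := norm_le_pi_norm (signedPerm σ s φ) (σ⁻¹ i)
    rw [h1] at h2
    simpa using h2

theorem class_norm (N : ℕ) : IsClassFunction fun φ : UnitAddTorus (Fin g) => ‖N • φ‖ := by
  intro σ s φ
  have h1 : N • signedPerm σ s φ = signedPerm σ s (N • φ) := by
    funext i
    simp only [signedPerm, Pi.smul_apply]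
    rw [smul_comm]
  simp only
  rw [h1, norm_signedPerm]

theorem torsion_mean {Γ : AddSubgroup (Fin g → ℤ)} {a : UnitAddTorus (Fin g)} (h : Adm g Γ a)
    {N : ℕ} (hΓ : ∀ μ : Fin g → ℤ, N • μ ∈ Γ) {σ : Measure (UnitAddTorus (Fin g))}
    (hσ : Pool.Agent.Y139.ID.IsHaarOn (Pool.Agent.Y139.ID.annih Γ) σ) :
    cosetMean (sympW g) (sympRoots g) σ a (fun x => ‖(2 * N) • x‖) = 0 := by
  have hae : ∀ᵐ x ∂σ, x ∈ Pool.Agent.Y139.ID.annih Γ := by
    rw [ae_iff]
    exact hσ.supp
  unfold cosetMean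
  have h1 : ∫ x, ‖(2 * N) • (a + x)‖ * dens (sympRoots g) (a + x) ∂σ = 0 := by
    refine integral_eq_zero_of_ae ?_
    filter_upwards [hae] with x hx
    have h2 : (2 * N) • (a + x) = 0 := by
      refine ext_mF fun μ => ?_
      have h3 := Pool.Agent.Y139.ID.mem_annih.1 hx _ (hΓ μ)
      have h4 := h.2.1 _ (hΓ μ)
      have h5 : mFourier μ (0 : UnitAddTorus (Fin g)) = 1 := by simp [mFourier]
      rw [h5, mul_comm, mul_smul, mF_nsmul, smul_add, Pool.Agent.Y139.ID.mFourier_apply_add,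
        mF_nsmul, mF_nsmul, mFourier_nsmul 2, mFourier_nsmul 2, h3]
      rcases h4 with h4 | h4 <;> rw [h4] <;> norm_num
    rw [h2]
    simp
  rw [h1, mul_zero]

theorem mult_eq {r : ℕ} (k : Fin r → ℕ) : multiplicity g k = Pool.Agent.Y798.FC.stM g k := by
  unfold multiplicity Pool.Agent.Y798.FC.stM satoTate
  rw [card_W]
  rfl

end Bridge

open Pool.Agent.Y798.FC Pool.Agent.TH553.ST in
/-- **Finitely many orders at `s = 1` decide the Sato-Tate law, up to discretisation.**  For every `g` there is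
`R` such that the following holds.

1. Nothing is supposed: for continuous class functions `f_1, …, f_m` on `USp(2g)` and `δ > 0` there are
   `η > 0` and `R'`, independent of the number field `K` and of the angles `φ_v`, such that for all small `ε`

   * for some word `k` of length at most `R'` the number `x_k(ε) = log|L(k, 1 + ε)| / log(1/ε)` has a distance
     greater than `η` from the integers, or
   * for some word `k` of length at most `R` it has a distance greater than `η` from the multiplicity of the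
     trivial representation of `USp(2g)`, or
   * the Dirichlet averages of the `f_i(φ_v)` at `ε` are, up to `δ`, the mean values of the `f_i` for the
     Sato-Tate law or one of its discretisations.

2. If all `L(k, s)` have meromorphic continuations to neighbourhoods of `s = 1`, with zeros and poles of any
   orders, and for the words `k` of length at most `R` the order of the pole at `s = 1` is the multiplicity of
   the trivial representation of `USp(2g)`, then the classes have a law in the sense of Dirichlet density, and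
   it is the Sato-Tate law or one of its discretisations; it is the Sato-Tate law if the angles are not almost
   torsion; and if all `L(k, s)` have meromorphic continuations to neighbourhoods of all points of the line
   `Re s = 1`, then it is also the law in the sense of natural density. -/
theorem result (g : ℕ) : ∃ R : ℕ,
    (∀ (m : ℕ) (f : Fin m → UnitAddTorus (Fin g) → ℝ), (∀ i, Continuous (f i)) →
      (∀ i, IsClassFunction (f i)) → ∀ δ : ℝ, 0 < δ →
      ∃ (η : ℝ) (R' : ℕ), 0 < η ∧ ∀ (K : Type) [Field K] [NumberField K]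
        (φ : HeightOneSpectrum (𝓞 K) → UnitAddTorus (Fin g)), ∀ᶠ ε : ℝ in 𝓝[>] 0,
          (∃ (r : ℕ) (k : Fin r → ℕ), r ≤ R' ∧ (∀ j, k j ≤ g + g) ∧
            ∀ n : ℤ, η < |size (LWord φ k) ε - n|) ∨
          (∃ (r : ℕ) (k : Fin r → ℕ), r ≤ R ∧ (∀ j, k j ≤ g + g) ∧
            η < |size (LWord φ k) ε - multiplicity g k|) ∨
          ∃ M : (UnitAddTorus (Fin g) → ℝ) → ℝ, IsLaw g M ∧
            ∀ i, |dirichletAvg (fun v => f i (φ v)) ε - M (f i)| ≤ δ) ∧
    ∀ (K : Type) [Field K] [NumberField K] (φ : HeightOneSpectrum (𝓞 K) → UnitAddTorus (Fin g)),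
      (∀ (r : ℕ) (k : Fin r → ℕ), (∀ j, k j ≤ g + g) → ContinuesTo (LWord φ k) 1) →
      (∀ (r : ℕ) (k : Fin r → ℕ), r ≤ R → (∀ j, k j ≤ g + g) →
        ∃ m : ℤ, (m : ℝ) = multiplicity g k ∧ HasPole (LWord φ k) 1 m) →
      ∃ M : (UnitAddTorus (Fin g) → ℝ) → ℝ, IsLaw g M ∧ (M = satoTate g ∨ AlmostTorsion φ) ∧
        ∀ f : UnitAddTorus (Fin g) → ℝ, Continuous f → IsClassFunction f →
          Tendsto (dirichletAvg fun v => f (φ v)) (𝓝[>] 0) (𝓝 (M f)) ∧
          ((∀ (r : ℕ) (k : Fin r → ℕ), (∀ j, k j ≤ g + g) →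
              ∀ τ : ℝ, ContinuesTo (LWord φ k) (1 + τ * Complex.I)) →
            Tendsto (avg fun v => f (φ v)) atTop (𝓝 (M f))) := by
  have hdiv : StmDiv := Pool.Agent.Y495.FC.Div.t
  have hstr : StmStr := Pool.Agent.H70FC.t
  have him : StmIm := Pool.Agent.Y681.FC.t
  have htaub : StmTaub := Pool.Agent.Y37.FC.t_Taub
  have hinv : StmInv := Pool.Agent.Y988.FC.t
  have hC : StmC := Pool.Agent.Y674.FC.t
  have hirr : StmIrr := Pool.Agent.Y495.FC.t
  have hwords : StmWords := Pool.Agent.H70FC.Words.t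
  obtain ⟨R1, hR1⟩ := symp hdiv hstr him htaub hinv hC hirr hwords g
  obtain ⟨F, hF⟩ := struct_law hdiv hstr (hC g)
  choose G hG hGorb using hwords g
  choose R0 hR0 using fun μ => span_R (hG μ)
  refine ⟨max R1 (F.sup R0), fun m f hf hfc δ hδ => ?_, fun K _ _ φ hcont hpole => ?_⟩
  · obtain ⟨η, R', hη, hmain⟩ := finite_level hC hirr hF hG hGorb
      (R := max R1 (F.sup R0)) (fun μ hμ => hR0 μ _ ((Finset.le_sup hμ).trans (le_max_right _ _)))
      f hf (fun i => inv_of_class (hfc i)) hδ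
    refine ⟨η, R', hη, fun K _ _ φ => ?_⟩
    filter_upwards [hmain K φ] with ε hε
    rcases hε with h | h | ⟨Γ, a, hadm, h⟩
    · exact Or.inl h
    · right
      left
      obtain ⟨r, k, h1, h2, h3⟩ := h
      refine ⟨r, k, h1, h2, ?_⟩
      rw [mult_eq]
      exact h3
    · right
      right
      obtain ⟨M, σ, hM, -, hσ, hMf⟩ := law_of_adm hadm
      refine ⟨M, hM, fun i => ?_⟩
      rw [← hMf (f i) (hf i)]
      exact h σ hσ i
  · obtain ⟨Γ, a, h1, h2, h3, h4⟩ := hR1 K φ hcont (fun r k hr hk => by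
      obtain ⟨m, h1, h2⟩ := hpole r k (hr.trans (le_max_left _ _)) hk
      refine ⟨m, ?_, h2⟩
      rw [stMult_eq, ← mult_eq, ← h1]
      push_cast
      rfl)
    obtain ⟨M, σ, hM, hbot, hσ, hMf⟩ := law_of_adm ⟨h1, h2, h3⟩
    refine ⟨M, hM, ?_, fun f hf hfc => ?_⟩
    · rcases h1 with h0 | ⟨N, hN, hΓ⟩
      · exact Or.inl (hbot h0)
      · right
        have hc : Continuous fun x : UnitAddTorus (Fin g) => ‖(2 * N) • x‖ :=
          (continuous_const_smul (2 * N)).norm
        have h5 := (h4 σ hσ _ hc (inv_of_class (class_norm (2 * N)))).1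
        rw [torsion_mean ⟨Or.inr ⟨N, hN, hΓ⟩, h2, h3⟩ hΓ hσ] at h5
        exact ⟨2 * N, by omega, h5⟩
    · rw [← hMf f hf, avg_eq]
      exact h4 σ hσ f hf (inv_of_class hfc)

end Pool.Agent.Results.MP_c481b3_nt.FinitelyManyOrders
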